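import Pool.Agent.MP_1246c0_nt.H12.SpecR

/-! Averages over finite subgroups. -/

namespace Pool.Agent.MP_1246c0_nt.H12

open Polynomial Finset Matrix

namespace AVG

variable {M M' : Type} [AddCommGroup M] [AddCommGroup M']

theorem ex_eq (A : AddSubgroup M) [Fintype A] (f : M → ℝ) :
    Ex A f = (∑ h : A, f h) / Nat.card A := by
  rw [Ex, finsum_eq_sum_of_fintype]

theorem card_ne (A : AddSubgroup M) [Finite A] : (Nat.card A : ℝ) ≠ 0 :=
  Nat.cast_ne_zero.2 Nat.card_pos.ne'

theorem sum (κ : Type) [Finite M] (A : AddSubgroup M) (s : Finset κ) (f : κ → M → ℝ) :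
    Ex A (fun h => ∑ i ∈ s, f i h) = ∑ i ∈ s, Ex A (f i) := by
  haveI := Fintype.ofFinite A
  simp only [ex_eq]
  rw [Finset.sum_comm, Finset.sum_div]

theorem surj {G H : Type} [AddCommGroup G] [AddCommGroup H] [Fintype G] [Fintype H] (ψ : G →+ H)
    (hψ : Function.Surjective ψ) (F : H → ℝ) :
    (∑ g, F (ψ g)) / Nat.card G = (∑ h, F h) / Nat.card H := by
  have h1 : ∀ h, ∑ g, F (ψ g + h) = ∑ g, F (ψ g) := fun h => by
    obtain ⟨s, rfl⟩ := hψ h
    simp only [← map_add]
    exact Equiv.sum_comp (Equiv.addRight s) fun g => F (ψ g)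
  have h2 : ∀ g, ∑ h, F (ψ g + h) = ∑ h, F h := fun g => Equiv.sum_comp (Equiv.addLeft (ψ g)) F
  have h3 : ∑ h, ∑ g, F (ψ g + h) = ∑ g, ∑ h, F (ψ g + h) := Finset.sum_comm
  simp only [h1, h2, Finset.sum_const, Finset.card_univ, nsmul_eq_mul,
    ← Nat.card_eq_fintype_card] at h3
  rw [div_eq_div_iff (Nat.cast_ne_zero.2 Nat.card_pos.ne') (Nat.cast_ne_zero.2 Nat.card_pos.ne'),
    mul_comm, h3, mul_comm]

theorem map [Finite M] (φ : M →+ M') (A : AddSubgroup M) (f : M' → ℝ) :
    Ex A (fun h => f (φ h)) = Ex (A.map φ) f := by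
  haveI := Fintype.ofFinite A
  haveI : Finite (A.map φ) := Finite.of_surjective _ (φ.addSubgroupMap_surjective A)
  haveI := Fintype.ofFinite (A.map φ)
  rw [ex_eq, ex_eq]
  exact surj (φ.addSubgroupMap A) (φ.addSubgroupMap_surjective A) fun b => f b

theorem hs_map {Λ ι ι' : Type} [CommRing Λ] [Fintype ι'] [DecidableEq ι] (st : Λ →+* Λ)
    (B F : Finset ι) (f : ι' → ι) (hf : f.Injective) (H' : Matrix ι' ι' Λ)
    (h : H' ∈ Hs st (univ.filter fun l => f l ∈ B) (univ.filter fun l => f l ∈ F)) :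
    ∃ H ∈ Hs st B F, H.submatrix f f = H' := by
  obtain ⟨h1, h2, h3⟩ := h
  let H : Matrix ι ι Λ := fun l l' =>
    Function.extend f (fun a => Function.extend f (H' a) 0 l') 0 l
  have e1 : ∀ a a', H (f a) (f a') = H' a a' := fun a a' => by
    simp only [H, hf.extend_apply]
  have e2 : ∀ l l', (¬∃ a, f a = l) → H l l' = 0 := fun l l' hl => by
    simp only [H, Function.extend_apply' _ _ _ hl, Pi.zero_apply]
  have e3 : ∀ l l', (¬∃ a, f a = l') → H l l' = 0 := fun l l' hl => by
    by_cases hl' : ∃ a, f a = l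
    · obtain ⟨a, rfl⟩ := hl'
      simp only [H, hf.extend_apply, Function.extend_apply' _ _ _ hl, Pi.zero_apply]
    · exact e2 l l' hl'
  refine ⟨H, ⟨fun l l' => ?_, fun l => ?_, fun l l' hn => ?_⟩, Matrix.ext e1⟩
  · by_cases hl : ∃ a, f a = l
    · by_cases hl' : ∃ a, f a = l'
      · obtain ⟨a, rfl⟩ := hl
        obtain ⟨a', rfl⟩ := hl'
        rw [e1, e1, h1]
      · rw [e2 _ _ hl', e3 _ _ hl', map_zero]
    · rw [e3 _ _ hl, e2 _ _ hl, map_zero]
  · by_cases hl : ∃ a, f a = l
    · obtain ⟨a, rfl⟩ := hl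
      rw [e1]
      exact h2 a
    · exact ⟨0, by rw [e2 _ _ hl, Int.cast_zero]⟩
  · by_cases hl : ∃ a, f a = l
    · by_cases hl' : ∃ a, f a = l'
      · obtain ⟨a, rfl⟩ := hl
        obtain ⟨a', rfl⟩ := hl'
        rw [e1]
        exact h3 a a' (by simpa using hn)
      · exact e3 _ _ hl'
    · exact e2 _ _ hl

end AVG

open AVG in
theorem rowAVG : SAVG where
  mono M _ _ A f g h := by
    haveI := Fintype.ofFinite A
    rw [ex_eq, ex_eq]
    exact div_le_div_of_nonneg_right (Finset.sum_le_sum fun x _ => h x x.2) (Nat.cast_nonneg _)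
  const M _ _ A c := by
    haveI := Fintype.ofFinite A
    rw [ex_eq, Finset.sum_const, Finset.card_univ, nsmul_eq_mul, ← Nat.card_eq_fintype_card,
      mul_div_cancel_left₀ _ (card_ne A)]
  add M _ _ A f g := by
    haveI := Fintype.ofFinite A
    simp only [ex_eq]
    rw [Finset.sum_add_distrib, add_div]
  mul M _ A c f := by
    rcases finite_or_infinite A with h | h
    · haveI := Fintype.ofFinite A
      simp only [ex_eq]
      rw [← Finset.mul_sum, mul_div_assoc]
    · simp [Ex]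
  sum M κ _ _ A s f := AVG.sum κ A s f
  sub M _ _ A A' f hle := by
    haveI := Fintype.ofFinite A
    haveI := Fintype.ofFinite A'
    simp only [ex_eq]
    have h1 : ∀ h' : A', ∑ h : A, f (h + h') = ∑ h : A, f h := fun h' =>
      Equiv.sum_comp (Equiv.addRight (⟨h', hle h'.2⟩ : A)) fun h : A => f h
    rw [← Finset.sum_div, Finset.sum_comm]
    simp only [h1]
    rw [Finset.sum_const, Finset.card_univ, nsmul_eq_mul, ← Nat.card_eq_fintype_card,
      mul_div_cancel_left₀ _ (card_ne A')]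
  map M M' _ _ _ φ A f := AVG.map φ A f
  fib M M' _ _ _ φ A v := by
    classical
    haveI : Finite (A.map φ) := Finite.of_surjective _ (φ.addSubgroupMap_surjective A)
    haveI := Fintype.ofFinite (A.map φ)
    rw [AVG.map φ A fun b => ind (b = v), ex_eq]
    congr 1
    by_cases hv : v ∈ A.map φ
    · rw [Finset.sum_eq_single (⟨v, hv⟩ : A.map φ)]
      · simp only [ind, if_pos hv, if_true]
      · intro b _ hb
        exact if_neg fun h => hb (Subtype.ext h)
      · intro h
        exact absurd (Finset.mem_univ _) h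
    · rw [ind, if_neg hv]
      exact Finset.sum_eq_zero fun b _ => if_neg fun h : (b : M') = v => hv (h ▸ b.2)
  cnt M κ _ _ _ A p := by
    classical
    rw [← AVG.sum]
    congr 1
    funext h
    rw [Nat.card_eq_fintype_card, Fintype.card_subtype, Finset.card_filter, Nat.cast_sum]
    refine Finset.sum_congr rfl fun x _ => ?_
    by_cases hx : p h x <;> simp [ind, hx]
  res Λ ι ι' _ _ _ _ _ _ st B F f Φ hf := by
    let φ : Matrix ι ι Λ →+ Matrix ι' ι' Λ :=
      ⟨⟨fun H => H.submatrix f f, rfl⟩, fun _ _ => rfl⟩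
    refine (AVG.map φ (Hs st B F) Φ).trans ?_
    congr 1
    refine le_antisymm ?_ fun H' h => hs_map st B F f hf H' h
    rintro _ ⟨H, ⟨h1, h2, h3⟩, rfl⟩
    exact ⟨fun l l' => h1 (f l) (f l'), fun l => h2 (f l),
      fun l l' hn => h3 (f l) (f l') (by simpa using hn)⟩

end Pool.Agent.MP_1246c0_nt.H12
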