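import Pool.Agent.MP_1246c0_nt.H25.SpecU
import Pool.Agent.MP_db5b97_nt.H72.ZRC

/-! Continuation of the series of a character of ray classes. -/

namespace Pool.Agent.MP_1246c0_nt.H25

open NumberField Finset Pool.Agent.MP_db5b97_nt.H85 Pool.Agent.MP_db5b97_nt.H72

namespace AL2

variable {K : Type} [Field K] [NumberField K]

theorem nc_mul (I J : Ideal (𝓞 K)) (s : ℂ) : nc (I * J) s = nc I s * nc J s := by
  simp only [nc, map_mul, Nat.cast_mul]
  exact Complex.natCast_mul_natCast_cpow _ _ _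

theorem norm_nc (I : Ideal (𝓞 K)) {s : ℂ} (hs : 1 < s.re) : ‖nc I s‖ = nz I s.re := by
  rw [nc, nz, Complex.norm_natCast_cpow_of_re_ne_zero _ (by rw [Complex.neg_re]; linarith),
    Complex.neg_re]

theorem summ (g : Ideal (𝓞 K) → ℂ) (hg : ∀ I, ‖g I‖ ≤ 1) {s : ℂ} (hs : 1 < s.re) :
    Summable fun I => g I * nc I s :=
  (zeta_sum hs).1.of_norm_bounded fun I => by
    rw [norm_mul, norm_nc I hs]
    exact mul_le_of_le_one_left (nz_nonneg _ _) (hg I)

omit [NumberField K] in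
theorem norm_sgA (A : Finset (K →+* ℝ)) (a : 𝓞 K) : ‖sgA A a‖ = 1 := by
  rw [sgA, norm_prod]
  exact prod_eq_one fun ρ _ => by split_ifs <;> simp

theorem cop_norm {c : Ideal (𝓞 K)} (hc : IsCoprime c (Ideal.span {((2 : ℕ) : 𝓞 K)})) :
    Nat.Coprime 2 (Ideal.absNorm c) := by
  have := fin_quot (ne_bot_of_cop le_rfl hc)
  have := Fintype.ofFinite (𝓞 K ⧸ c)
  refine (Nat.Prime.coprime_iff_not_dvd Nat.prime_two).2 fun h => ?_
  rw [Ideal.absNorm_apply, Submodule.cardQuot_apply, Nat.card_eq_fintype_card] at h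
  refine not_isUnit_prime_of_dvd_card h ?_
  have h1 : (1 : 𝓞 K) ∈ c ⊔ Ideal.span {((2 : ℕ) : 𝓞 K)} := by
    rw [Ideal.isCoprime_iff_sup_eq.1 hc]; trivial
  obtain ⟨y, hy, z, hz, e⟩ := Submodule.mem_sup.1 h1
  obtain ⟨b, rfl⟩ := Ideal.mem_span_singleton.1 hz
  refine IsUnit.of_mul_eq_one (Ideal.Quotient.mk c b) ?_
  rw [← map_natCast (Ideal.Quotient.mk c), ← map_mul, ← map_one (Ideal.Quotient.mk c), ← e,
    map_add, Ideal.Quotient.eq_zero_iff_mem.2 hy, zero_add]

open Classical in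
/-- the sum over the residue classes vanishes -/
theorem mean {m : ℕ} {θ : 𝓞 K → ℂ} {c : Ideal (𝓞 K)}
    (hc : IsCoprime c (Ideal.span {((2 : ℕ) : 𝓞 K)})) (hp : ∀ a b, θ (a + 2 ^ m * b) = θ a)
    (hm : ∀ a b, θ (a * b) = θ a * θ b) {b : 𝓞 K} (hb : IsCoprime b 2) (hb1 : θ b ≠ 1) :
    Per ((2 ^ m * Ideal.absNorm c : ℕ) : 𝓞 K) (fun a => if a ∈ c then θ a else 0) ∧
      av ((2 ^ m * Ideal.absNorm c : ℕ) : 𝓞 K) (fun a => if a ∈ c then θ a else 0) = 0 := by
  have hN := Ideal.absNorm_mem c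
  have hP : Per ((2 ^ m * Ideal.absNorm c : ℕ) : 𝓞 K) fun a => if a ∈ c then θ a else 0 := by
    intro a d
    push_cast
    rw [mul_assoc, hp]
    exact if_congr (c.add_mem_iff_left (c.mul_mem_left _ (c.mul_mem_right d hN))) rfl rfl
  refine ⟨hP, ?_⟩
  have h1 : IsCoprime ((2 ^ m : ℕ) : 𝓞 K) (Ideal.absNorm c : 𝓞 K) :=
    ((cop_norm hc).pow_left m).cast
  obtain ⟨x, y, e⟩ := h1
  push_cast at e
  have hu : IsCoprime (b + 2 ^ m * (x * (1 - b))) ((2 ^ m * Ideal.absNorm c : ℕ) : 𝓞 K) := by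
    push_cast
    refine (hb.pow_right.add_mul_left_left _).mul_right ?_
    rw [show b + 2 ^ m * (x * (1 - b)) = 1 + Ideal.absNorm c * (y * (b - 1)) by
      linear_combination (1 - b) * e]
    exact isCoprime_one_left.add_mul_left_left _
  have h2 := hP.affine hu 0
  have h3 : ∀ a, (if (b + 2 ^ m * (x * (1 - b))) * a + 0 ∈ c then
      θ ((b + 2 ^ m * (x * (1 - b))) * a + 0) else 0) = θ b * if a ∈ c then θ a else 0 := by
    intro a
    rw [add_zero, hm, hp, mul_ite, mul_zero]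
    refine if_congr ?_ rfl rfl
    rw [show (b + 2 ^ m * (x * (1 - b))) * a = a + Ideal.absNorm c * (y * (b - 1) * a) by
      linear_combination (1 - b) * a * e]
    exact c.add_mem_iff_left (c.mul_mem_right _ hN)
  simp only [h3] at h2
  have hQ : 2 ^ m * Ideal.absNorm c ≠ 0 := mul_ne_zero (by positivity)
    (by simpa [Ideal.absNorm_eq_zero_iff] using ne_bot_of_cop le_rfl hc)
  have := fin_quot (c := Ideal.span {((2 ^ m * Ideal.absNorm c : ℕ) : 𝓞 K)})
    (by simpa only [ne_eq, Ideal.span_singleton_eq_bot, Nat.cast_eq_zero] using hQ)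
  have := Fintype.ofFinite (𝓞 K ⧸ Ideal.span {((2 ^ m * Ideal.absNorm c : ℕ) : 𝓞 K)})
  simp only [av, finsum_eq_sum_of_fintype, ← mul_sum] at h2 ⊢
  exact by_contra fun h => hb1 ((mul_eq_right₀ h).1 h2)

end AL2

open AL2 in
theorem rowAL2 : OfAL2 := by
  classical
  intro h1 K _ _
  obtain ⟨C, hC⟩ := h1 K
  choose c hc hcl using exists_rep (k := K) (l := 2) le_rfl
  have hc0 := fun X => ne_bot_of_cop le_rfl (hc X)
  have hN : ∀ X, 0 < Ideal.absNorm (c X) := fun X =>
    Nat.pos_of_ne_zero (by simpa [Ideal.absNorm_eq_zero_iff] using hc0 X)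
  refine ⟨∑ X, (Ideal.absNorm (c X) : ℝ) ^ 4 *
    (C * Ideal.absNorm (c X) ^ (Module.finrank ℚ K + 1)), ?_⟩
  rintro m ω θ A hmul hle hcop hθ hp hm ⟨b, hb, hb1⟩
  have hθ1 : ∀ a, a ≠ 0 → ‖θ a‖ ≤ 1 := fun a ha => by
    have := hle (Ideal.span {a})
    rwa [hθ a ha, norm_mul, norm_sgA, mul_one] at this
  have hθ2 : ∀ a, ‖θ a‖ ≤ 1 := fun a => by
    rcases eq_or_ne a 0 with rfl | ha
    · rw [← hp 0 1]
      exact hθ1 _ (by simp)
    · exact hθ1 a ha
  have hH : ∀ X, Hol (fun J => if c X ∣ J then pr J * ω J else 0)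
      (C * (2 ^ m * Ideal.absNorm (c X) : ℕ) ^ (Module.finrank ℚ K + 1)) := fun X => by
    obtain ⟨k1, k2⟩ := mean (hc X) hp hm hb hb1
    refine hC _ (fun a => if a ∈ c X then θ a else 0) A _ (mul_pos (by positivity) (hN X))
      (fun a => ?_) k1 k2 (fun I hI => by simp [pr, hI]) fun a ha => ?_
    · split_ifs
      · exact hθ2 a
      · simp
    · simp only [pr_span, one_mul, hθ a ha, Ideal.dvd_iff_le, Ideal.span_singleton_le_iff_mem,
        ite_mul, zero_mul]
  choose G hG1 hG2 hG3 using hH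
  have hω : ∀ X, ‖ω (c X)‖ = 1 := fun X => hcop _ (by simpa using hc X)
  have hN' : ∀ X, ((Ideal.absNorm (c X) : ℕ) : ℂ) ≠ 0 := fun X => Nat.cast_ne_zero.2 (hN X).ne'
  refine ⟨fun s => ∑ X, (ω (c X))⁻¹ * ((Ideal.absNorm (c X) : ℕ) : ℂ) ^ s * G X s,
    DifferentiableOn.fun_sum fun X _ => ?_, fun s hs => ?_, fun s hs => ?_⟩
  · exact ((differentiableOn_id.const_cpow (.inl (hN' X))).const_mul _).mul (hG1 X)
  · rw [sum_mul]
    refine (norm_sum_le _ _).trans (sum_le_sum fun X _ => ?_)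
    have h4 : s.re ≤ (4 : ℕ) := by
      have a1 := Complex.re_le_norm (s - 2)
      rw [Metric.mem_ball, dist_eq_norm] at hs
      have a2 : (1 : ℝ) ≤ Module.finrank ℚ K := by exact_mod_cast Module.finrank_pos
      have a3 : (1 : ℝ) / (2 * Module.finrank ℚ K) ≤ 1 := by
        rw [div_le_one (by linarith)]
        linarith
      simp only [Complex.sub_re, Complex.re_ofNat] at a1
      push_cast
      linarith
    have h5 := Real.rpow_le_rpow_of_exponent_le
      (show (1 : ℝ) ≤ Ideal.absNorm (c X) by exact_mod_cast hN X) h4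
    rw [Real.rpow_natCast] at h5
    rw [norm_mul, norm_mul, norm_inv, hω, inv_one, one_mul,
      Complex.norm_natCast_cpow_of_pos (hN X)]
    refine (mul_le_mul h5 (hG2 X s hs) (norm_nonneg _) (by positivity)).trans (le_of_eq ?_)
    push_cast
    ring
  · have hs1 : 1 < s.re := by
      have a1 := Complex.re_le_norm (2 - s)
      rw [Metric.mem_ball, dist_comm, dist_eq_norm] at hs
      simp only [Complex.sub_re, Complex.re_ofNat] at a1
      linarith
    have e1 : ∀ X, (ω (c X))⁻¹ * ((Ideal.absNorm (c X) : ℕ) : ℂ) ^ s * G X s =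
        ∑' I, pr (c X * I) * ω I * nc I s := fun X => by
      have a1 : ω (c X) ≠ 0 := norm_ne_zero_iff.1 (by rw [hω]; exact one_ne_zero)
      have a2 : ((Ideal.absNorm (c X) : ℕ) : ℂ) ^ s * nc (c X) s = 1 := by
        rw [nc, ← Complex.cpow_add _ _ (hN' X), add_neg_cancel, Complex.cpow_zero]
      have a3 := tsum_dvd (hc0 X) fun J => pr J * ω J * nc J s
      rw [hG3 X s hs]
      simp only [ite_mul, zero_mul]
      rw [a3, ← tsum_mul_left]
      refine tsum_congr fun I => ?_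
      rw [hmul, nc_mul]
      field_simp
      linear_combination (pr (c X * I) * ω I * nc I s) * a2
    simp only [e1]
    rw [← Summable.tsum_finsetSum fun X _ => summ (fun I => pr (c X * I) * ω I) (fun I => by
      rw [norm_mul]
      exact mul_le_one₀ (norm_pr _) (norm_nonneg _) (hle I)) hs1]
    refine tsum_congr fun I => ?_
    rcases eq_or_ne I ⊥ with rfl | hI
    · have : nc (⊥ : Ideal (𝓞 K)) s = 0 := by
        rw [← norm_eq_zero, norm_nc _ hs1, nz_bot hs1]
      simp [this]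
    · have : ∀ X, pr (c X * I) = if X = (cl I)⁻¹ then 1 else 0 := fun X => by
        rw [pr]
        refine if_congr ?_ rfl rfl
        rw [← cl_eq_one (mul_ne_zero (hc0 X) hI), cl_mul (hc0 X) hI, hcl, mul_eq_one_iff_eq_inv]
      simp [this]

end Pool.Agent.MP_1246c0_nt.H25
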