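import Pool.Agent.MP_1246c0_nt.H25.SpecA
import Pool.Agent.MP_db5b97_nt.H85.NT

/-! A bound for the class number from characters of the group of divisors. -/

namespace Pool.Agent.MP_1246c0_nt.H25

open NumberField IsDedekindDomain Pool.Agent.MP_db5b97_nt.H85

namespace CLS

/-! ### Finite abelian groups -/

theorem step (Q : Type) [AddCommGroup Q] [Finite Q] (g : Q) (b k : ℕ) (hk : Odd k)
    (h : (2 ^ b * k) • g = 0) : ∃ (Q' : Type) (_ : AddCommGroup Q') (_ : Finite Q') (π : Q →+ Q'),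
      Function.Surjective π ∧ π g = 0 ∧
        padicValNat 2 (Nat.card Q) ≤ padicValNat 2 (Nat.card Q') + b := by
  refine ⟨Q ⧸ AddSubgroup.zmultiples g, inferInstance, inferInstance, QuotientAddGroup.mk' _,
    QuotientAddGroup.mk'_surjective _,
    (QuotientAddGroup.eq_zero_iff _).2 (AddSubgroup.mem_zmultiples g), ?_⟩
  rw [AddSubgroup.card_eq_card_quotient_mul_card_addSubgroup (AddSubgroup.zmultiples g),
    padicValNat.mul Nat.card_pos.ne' Nat.card_pos.ne', Nat.card_zmultiples]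
  refine Nat.add_le_add_left ?_ _
  have h1 : 2 ^ padicValNat 2 (addOrderOf g) ∣ 2 ^ b * k :=
    pow_padicValNat_dvd.trans (addOrderOf_dvd_iff_nsmul_eq_zero.2 h)
  have h2 := (Nat.Coprime.pow_left _ ((Nat.Prime.coprime_iff_not_dvd Nat.prime_two).2
    hk.not_two_dvd_nat)).dvd_of_dvd_mul_right h1
  exact (Nat.pow_dvd_pow_iff_le_right one_lt_two).1 h2

theorem steps {ι : Type} (Q : Type) [AddCommGroup Q] [Finite Q] (g : ι → Q) (b : ℕ)
    (h : ∀ i, ∃ k, Odd k ∧ (2 ^ b * k) • g i = 0) (S : Finset ι) :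
    ∃ (Q' : Type) (_ : AddCommGroup Q') (_ : Finite Q') (π : Q →+ Q'),
      Function.Surjective π ∧ (∀ i ∈ S, π (g i) = 0) ∧
        padicValNat 2 (Nat.card Q) ≤ padicValNat 2 (Nat.card Q') + S.card * b := by
  classical
  induction S using Finset.induction_on with
  | empty =>
    exact ⟨Q, inferInstance, inferInstance, AddMonoidHom.id Q, Function.surjective_id, by simp,
      by simp⟩
  | insert i S hi ih =>
    obtain ⟨Q₁, _, _, π₁, s₁, z₁, c₁⟩ := ih
    obtain ⟨k, hk, e⟩ := h i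
    obtain ⟨Q₂, _, _, π₂, s₂, z₂, c₂⟩ := step Q₁ (π₁ (g i)) b k hk
      (by rw [← map_nsmul, e, map_zero])
    refine ⟨Q₂, inferInstance, inferInstance, π₂.comp π₁, s₂.comp s₁, fun j hj => ?_, ?_⟩
    · rcases Finset.mem_insert.1 hj with rfl | hj
      · exact z₂
      · rw [AddMonoidHom.comp_apply, z₁ j hj, map_zero]
    · rw [Finset.card_insert_of_notMem hi, add_mul, one_mul]
      omega

theorem val_prod {ι : Type} (S : Finset ι) (f : ι → ℕ) (hf : ∀ i, f i ≠ 0) :
    padicValNat 2 (∏ i ∈ S, f i) = ∑ i ∈ S, padicValNat 2 (f i) := by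
  classical
  induction S using Finset.induction_on with
  | empty => simp
  | insert i S hi ih =>
    rw [Finset.prod_insert hi, Finset.sum_insert hi,
      padicValNat.mul (hf i) (Finset.prod_ne_zero_iff.2 fun j _ => hf j), ih]

theorem core (Q : Type) [AddCommGroup Q] [Finite Q] (ρ J : ℕ)
    (h1 : ∀ X : Finset (Q →+ ZMod (2 ^ 1)), X.card ≤ 2 ^ ρ)
    (h2 : ∀ (χ : Q →+ ZMod (2 ^ J)) (x : Q), ¬IsUnit (χ x)) :
    padicValNat 2 (Nat.card Q) ≤ J * ρ := by
  classical
  obtain ⟨ι, _, p, hp, e, ⟨f⟩⟩ := AddCommGroup.equiv_directSum_zmod_of_finite Q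
  let F : Q ≃+ ∀ i, ZMod (p i ^ e i) := f.trans (DirectSum.addEquivProd _)
  have ch : ∀ i j, p i = 2 → j ≤ e i → ∃ χ : Q →+ ZMod (2 ^ j),
      χ (F.symm (Pi.single i 1)) = 1 ∧ ∀ i', i' ≠ i → χ (F.symm (Pi.single i' 1)) = 0 := by
    intro i j h hj
    have hd : 2 ^ j ∣ p i ^ e i := h ▸ pow_dvd_pow _ hj
    refine ⟨((ZMod.castHom hd (ZMod (2 ^ j))).toAddMonoidHom.comp
      (Pi.evalAddMonoidHom _ i)).comp F.toAddMonoidHom, ?_, fun i' hi => ?_⟩
    · show ZMod.castHom hd (ZMod (2 ^ j)) (F (F.symm (Pi.single i 1)) i) = 1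
      rw [F.apply_symm_apply, Pi.single_eq_same, map_one]
    · show ZMod.castHom hd (ZMod (2 ^ j)) (F (F.symm (Pi.single i' 1)) i) = 0
      rw [F.apply_symm_apply, Pi.single_eq_of_ne hi.symm, map_zero]
  have a1 : ∀ i, p i = 2 → e i ≤ J := fun i h => by
    by_contra hc
    obtain ⟨χ, c, -⟩ := ch i J h (by omega)
    exact h2 χ _ (c ▸ isUnit_one)
  let S := Finset.univ.filter fun i => p i = 2 ∧ 1 ≤ e i
  have a2 : S.card ≤ ρ := by
    choose χ c1 c2 using fun i : S => ch i 1 (Finset.mem_filter.1 i.2).2.1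
      (Finset.mem_filter.1 i.2).2.2
    have ev : ∀ (T : Finset S) (i : S),
        (∑ j ∈ T, χ j) (F.symm (Pi.single i.1 1)) = if i ∈ T then 1 else 0 := fun T i => by
      rw [AddMonoidHom.finset_sum_apply, ← Finset.sum_ite_eq T i fun _ => (1 : ZMod (2 ^ 1))]
      refine Finset.sum_congr rfl fun j _ => ?_
      split_ifs with h
      · rw [h, c1]
      · exact c2 j _ fun h' => h (Subtype.ext h')
    have inj : Function.Injective fun T : Finset S => ∑ j ∈ T, χ j := fun T T' h => by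
      ext i
      have h' : ∑ j ∈ T, χ j = ∑ j ∈ T', χ j := h
      have := ev T i
      rw [h', ev] at this
      have o : (1 : ZMod (2 ^ 1)) ≠ 0 := by decide
      by_cases a : i ∈ T <;> by_cases a' : i ∈ T' <;> simp_all
    have := h1 (Finset.univ.image fun T : Finset S => ∑ j ∈ T, χ j)
    rw [Finset.card_image_of_injective _ inj, Finset.card_univ, Fintype.card_finset,
      Fintype.card_coe] at this
    exact (Nat.pow_le_pow_iff_right one_lt_two).1 this
  rw [Nat.card_congr F.toEquiv, Nat.card_pi, val_prod _ _ fun i => by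
    rw [Nat.card_zmod]; exact pow_ne_zero _ (hp i).ne_zero]
  calc ∑ i, padicValNat 2 (Nat.card (ZMod (p i ^ e i)))
      ≤ ∑ i, if p i = 2 ∧ 1 ≤ e i then J else 0 := Finset.sum_le_sum fun i _ => by
        rw [Nat.card_zmod]
        by_cases h : p i = 2
        · have := a1 i h
          rw [h, padicValNat.prime_pow]
          split_ifs with h'
          · exact this
          · simp only [true_and] at h'
            omega
        · rw [padicValNat.eq_zero_of_not_dvd fun hd => h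
            ((Nat.prime_dvd_prime_iff_eq Nat.prime_two (hp i)).1
              (Nat.prime_two.dvd_of_dvd_pow hd)).symm]
          exact Nat.zero_le _
    _ = J * S.card := by rw [← Finset.sum_filter, Finset.sum_const, smul_eq_mul, mul_comm]
    _ ≤ J * ρ := Nat.mul_le_mul_left _ a2

/-! ### Classes of divisors -/

variable {F : Type} [Field F] [NumberField F] {l : ℕ}

/-- the class of a nonzero ideal, written additively -/
noncomputable def cl (I : Ideal (𝓞 F)) (h : I ≠ ⊥) : Additive (ClassGroup (𝓞 F)) :=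
  Additive.ofMul (ClassGroup.mk0 ⟨I, mem_nonZeroDivisors_of_ne_zero h⟩)

theorem cl_mul {I J : Ideal (𝓞 F)} (hI : I ≠ ⊥) (hJ : J ≠ ⊥) :
    cl (I * J) (mul_ne_zero hI hJ) = cl I hI + cl J hJ := by
  unfold cl
  rw [← ofMul_mul, ← map_mul]
  rfl

theorem cl_prin {I : Ideal (𝓞 F)} (h : I ≠ ⊥) (hI : I.IsPrincipal) : cl I h = 0 := by
  unfold cl
  rwa [ofMul_eq_zero, ClassGroup.mk0_eq_one_iff]

theorem cl_pow {I : Ideal (𝓞 F)} (h : I ≠ ⊥) (n : ℕ) :
    cl (I ^ n) (pow_ne_zero n h) = n • cl I h := by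
  unfold cl
  rw [← ofMul_pow, ← map_pow]
  rfl

theorem cl_surj (c : Additive (ClassGroup (𝓞 F))) : ∃ I hI, cl I hI = c := by
  obtain ⟨I, e⟩ := ClassGroup.mk0_surjective (Additive.toMul c)
  exact ⟨I, nonZeroDivisors.ne_zero I.2, congrArg Additive.ofMul e⟩

variable {Q : Type} [AddCommGroup Q] (π : Additive (ClassGroup (𝓞 F)) →+ Q)

variable (l) in
/-- the class of a divisor -/
noncomputable def psi : Dv F l →+ Q :=
  Finsupp.liftAddHom fun w => zmultiplesHom Q (π (cl w.1.asIdeal w.1.ne_bot))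

theorem psi_single (w : Pr F l) (n : ℤ) :
    psi l π (Finsupp.single w n) = n • π (cl w.1.asIdeal w.1.ne_bot) := by
  simp [psi]

theorem psi_dI (hπ : ∀ w : Pl F l, π (cl w.1.asIdeal w.1.ne_bot) = 0) (I : Ideal (𝓞 F)) :
    ∀ hI : I ≠ ⊥, psi l π (dI l I) = π (cl I hI) := by
  induction I using UniqueFactorizationMonoid.induction_on_prime with
  | h₁ => exact fun h => absurd rfl h
  | h₂ I hu =>
    intro hI
    obtain rfl : I = ⊤ := Ideal.isUnit_iff.1 hu
    rw [dI_top, cl_prin _ top_isPrincipal, map_zero, map_zero]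
  | h₃ I P hI hP ih =>
    intro h
    let w : Sp F := ⟨P, Ideal.isPrime_of_prime hP, hP.ne_zero⟩
    have hw : psi l π (dI l P) = π (cl P hP.ne_zero) := by
      by_cases hl : (l : 𝓞 F) ∈ P
      · have h1 := dI_pl (⟨w, hl⟩ : Pl F l)
        have h2 := hπ ⟨w, hl⟩
        change dI l P = 0 at h1
        change π (cl P _) = 0 at h2
        rw [h1, h2, map_zero]
      · have h1 := dI_pr (⟨w, hl⟩ : Pr F l)
        change dI l P = _ at h1
        rw [h1, psi_single, one_smul]
    rw [dI_mul hP.ne_zero hI, map_add, hw, ih hI, ← map_add, ← cl_mul]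

theorem psi_dv (hπ : ∀ w : Pl F l, π (cl w.1.asIdeal w.1.ne_bot) = 0) (x : Un F) :
    psi l π (dv F l x) = 0 := by
  obtain ⟨a, ha, b, hb, rfl⟩ := exists_mkI x
  rw [map_sub, map_sub, dv_mkI, dv_mkI, psi_dI π hπ _ (by simpa using ha),
    psi_dI π hπ _ (by simpa using hb), cl_prin _ ⟨a, rfl⟩, cl_prin _ ⟨b, rfl⟩, sub_self]

theorem psi_surj (hπ : ∀ w : Pl F l, π (cl w.1.asIdeal w.1.ne_bot) = 0)
    (hs : Function.Surjective π) : Function.Surjective (psi l π) := fun q => by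
  obtain ⟨c, rfl⟩ := hs q
  obtain ⟨I, hI, rfl⟩ := cl_surj c
  exact ⟨_, psi_dI π hπ I hI⟩

end CLS

open CLS in
theorem rowCLS : SCLS := by
  classical
  intro L _ _ w0 b ρ J hc ⟨x, hx⟩ hb h1 h2
  have hfin : Finite (Pl L 2) := Pl_finite (by norm_num)
  have := Fintype.ofFinite (Pl L 2)
  obtain ⟨Q₁, _, _, π₁, s₁, z₁, c₁⟩ := steps (Additive (ClassGroup (𝓞 L)))
    (fun w : Pl L 2 => cl w.1.asIdeal w.1.ne_bot) b (fun w => by
      obtain ⟨k, hk, e⟩ := hb w
      exact ⟨k, hk, by rw [← cl_pow, cl_prin _ e]⟩) Finset.univ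
  have z : ∀ w : Pl L 2, π₁ (cl w.1.asIdeal w.1.ne_bot) = 0 := fun w => z₁ w (Finset.mem_univ _)
  obtain ⟨Q₂, _, _, π₂, s₂, z₂, c₂⟩ := step Q₁ (psi 2 π₁ (Finsupp.single w0 1)) 1 1 odd_one (by
    rw [← map_nsmul, pow_one, mul_one, ← hx, psi_dv π₁ z])
  let ψ : Dv L 2 →+ Q₂ := π₂.comp (psi 2 π₁)
  have sψ : Function.Surjective ψ := s₂.comp (psi_surj π₁ z s₁)
  have k1 : ∀ y, ψ (dv L 2 y) = 0 := fun y => by
    rw [AddMonoidHom.comp_apply, psi_dv π₁ z, map_zero]
  have k2 : ψ (Finsupp.single w0 1) = 0 := z₂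
  have c₃ := core Q₂ ρ J (fun X => by
      have inj : Function.Injective fun χ : Q₂ →+ ZMod (2 ^ 1) => χ.comp ψ := fun χ χ' h =>
        AddMonoidHom.ext fun q => by
          obtain ⟨D, rfl⟩ := sψ q
          exact DFunLike.congr_fun h D
      rw [← Finset.card_image_of_injective X inj]
      refine h1 _ fun χ hχ => ?_
      obtain ⟨χ', -, rfl⟩ := Finset.mem_image.1 hχ
      exact ⟨fun y => by rw [AddMonoidHom.comp_apply, k1, map_zero],
        by rw [AddMonoidHom.comp_apply, k2, map_zero]⟩)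
    fun χ q => by
      obtain ⟨D, rfl⟩ := sψ q
      exact h2 (χ.comp ψ) (fun y => by rw [AddMonoidHom.comp_apply, k1, map_zero])
        (by rw [AddMonoidHom.comp_apply, k2, map_zero]) D
  rw [Finset.card_univ, ← Nat.card_eq_fintype_card] at c₁
  have c₄ := Nat.mul_le_mul_right b hc
  have e : Nat.card (ClassGroup (𝓞 L)) = Nat.card (Additive (ClassGroup (𝓞 L))) := rfl
  rw [e]
  omega

end Pool.Agent.MP_1246c0_nt.H25
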