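import Pool.Agent.MP_1246c0_nt.H25.SpecN

/-! Configurations with bad kernels are rare. -/

namespace Pool.Agent.MP_1246c0_nt.H25

open Finset Matrix Filter Function Pool.Agent.MP_db5b97_nt.H85
open Pool.Agent.MP_1246c0_nt.H12

namespace E2

theorem ind_le {p q : Prop} (h : p → q) : ind p ≤ ind q := by
  unfold ind
  split_ifs with a b b
  · exact le_rfl
  · exact (b (h a)).elim
  · exact zero_le_one
  · exact le_rfl

theorem cS_le {ℓ L : ℕ} (h : ℓ ≤ L) (κ : ℕ) : cS ℓ κ ≤ cS L κ := by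
  unfold cS
  gcongr <;> norm_num

theorem win (hD : SDEC) {X n m P : ℕ} {Sg : Finset ℕ} {i1 : Sg} {p : Fin m → ℕ}
    (hV : Vd X Sg m i1 p P) (hY : YY X ≤ Y2 X) (l : Sg ⊕ Fin m)
    (hl : l ∈ Ja X n (prs Sg p) ∪ Jb X n (prs Sg p)) : l ∈ BB Sg m ∧ n < lev (prs Sg p l) := by
  classical
  have h : YY X < prs Sg p l ∧ prs Sg p l % 2 ^ (n + 3) = 1 := by
    rcases mem_union.1 hl with h | h
    · have := (mem_filter.1 h).2
      exact ⟨this.1, this.2.2⟩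
    · have := (mem_filter.1 h).2
      exact ⟨hY.trans_lt this.1, this.2⟩
  have hg := hV.lb.odd l
  refine ⟨?_, (((hD.cls _ (hg.1.eq_two_or_odd.resolve_left hg.2.1) hg.1.one_lt).2.2
    (n + 1)).1.2 h.2).1⟩
  rcases l with x | x
  · have h1 := mem_range.1 (mem_filter.1 (mem_powerset.1 (mem_filter.1 hV.sm).1 x.2)).1
    have h2 : YY X < x.1 := h.1
    omega
  · simp [BB]

end E2

open E2 in
theorem rowE2 : OfE2 := by
  classical
  intro hD hL hP hP2 hS hR hG hE hO ε L A hε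
  obtain ⟨κ, hκ⟩ := hR (ε / 2) L A (half_pos hε)
  refine ⟨κ, fun S π hA hAn => ?_⟩
  obtain ⟨tp0, hκ⟩ := hκ π.j0
  obtain ⟨Λ, _, _, st, au, g, hg⟩ := hL.ex π.n
  have := Fintype.ofFinite Λ
  obtain ⟨K, hK⟩ : ∃ K : ℝ, ((2 : ℝ) ^ π.n) ^ 5 ≤ K ∧ (Fintype.card (F2 × Λ × Prop × Prop) : ℝ) ≤ K ∧
      2 / ε ≤ K ∧ 1 ≤ K ∧ (tp0 : ℝ) ≤ K ∧ ((2 * (2 * cS L κ * π.n) : ℕ) : ℝ) ≤ K :=
    (((eventually_ge_atTop _).and ((eventually_ge_atTop _).and ((eventually_ge_atTop _).and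
      ((eventually_ge_atTop _).and ((eventually_ge_atTop _).and (eventually_ge_atTop _)))))).exists)
  obtain ⟨k1, k2, k3, k4, k5, k6⟩ := hK
  filter_upwards [hP π.j0 K, hP2 0, hE S π hA] with X a1 a2 a3
  have b1 : K ≤ ll X := a1.1
  have b2 : K ≤ tpX X π.j0 := a1.2.2.2.2.2.2.1
  have hY : YY X ≤ Y2 X := a2.2.2.1.trans a2.2.2.2.2.1
  have c1 : tp0 ≤ tpX X π.j0 := by exact_mod_cast k5.trans b2
  have c2 : 2 * cS L κ * π.n ≤ 2 ^ (tpX X π.j0 / 2) := by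
    have : 2 * (2 * cS L κ * π.n) ≤ tpX X π.j0 := by exact_mod_cast k6.trans b2
    exact le_trans (by omega) Nat.lt_two_pow_self.le
  have key := a3 π.n Λ (F2 × Λ × Prop × Prop) st au g
    (fun q => (fl S π.n q S.Φ.f2 0, cX S.D π.n g q, T1 X π.n q, T2 X π.n q))
    (fun Sg m i1 p M => BadR g (fun i => lev (prs Sg p i)) (fun i => eps (prs Sg p i))
      (fun i => fl S π.n (prs Sg p i) S.Φ.f2 0) (.inl i1) M (fun i => cX S.D π.n g (prs Sg p i))
      (Ja X π.n (prs Sg p)) (Jb X π.n (prs Sg p)) L A κ) (ε / 2) hg (k1.trans b1)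
    (by nlinarith [Real.add_one_le_exp (ll X ^ 2)]) (half_pos hε).le ?_ ?_
  · refine (hG.mono X _ _ fun Sg m i1 p P hV => ind_le ?_).trans (key.trans ?_)
    · rintro ⟨hN, ℓ, hℓ, μ, m1, m2, m3, m4⟩
      refine ⟨hN, fun M' hM => by_contra fun hb => m4 ?_⟩
      have j1 := hN.j1
      have j2 := hN.j2
      rw [← m2] at hg hM hb j1 j2 c2
      refine hO _ Λ ℓ S μ _ P L A κ _ st au g M' _ _ hA hV.lb m3 hg hM hℓ m1
        (le_trans ?_ (c2.trans j1)) (card_pos.1 (lt_of_lt_of_le (by positivity) j2)) hb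
      have := cS_le hℓ κ
      gcongr
    · have d1 : 2 / ε ≤ Real.exp (ll X) := by linarith [Real.add_one_le_exp (ll X)]
      have d2 : (X : ℝ) / Real.exp (ll X) ≤ X / (2 / ε) :=
        div_le_div_of_nonneg_left (Nat.cast_nonneg _) (by positivity) d1
      rw [div_div_eq_mul_div] at d2
      linarith
  · intro Sg m i1 p p' M h hb
    have e : ∀ i, lev (prs Sg p i) = lev (prs Sg p' i) ∧ eps (prs Sg p i) = eps (prs Sg p' i) ∧
        fl S π.n (prs Sg p i) S.Φ.f2 0 = fl S π.n (prs Sg p' i) S.Φ.f2 0 ∧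
        cX S.D π.n g (prs Sg p i) = cX S.D π.n g (prs Sg p' i) ∧
        T1 X π.n (prs Sg p i) = T1 X π.n (prs Sg p' i) ∧
        T2 X π.n (prs Sg p i) = T2 X π.n (prs Sg p' i) := by
      rintro (x | x)
      · exact ⟨rfl, rfl, rfl, rfl, rfl, rfl⟩
      · have := (h x).2.2
        simp only [Prod.mk.injEq] at this
        exact ⟨(h x).1, (h x).2.1, this⟩
    have e1 : Ja X π.n (prs Sg p) = Ja X π.n (prs Sg p') :=
      filter_congr fun i _ => (e i).2.2.2.2.1.to_iff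
    have e2 : Jb X π.n (prs Sg p) = Jb X π.n (prs Sg p') :=
      filter_congr fun i _ => (e i).2.2.2.2.2.to_iff
    rwa [← funext fun i => (e i).1, ← funext fun i => (e i).2.1, ← funext fun i => (e i).2.2.1,
      ← funext fun i => (e i).2.2.2.1, ← e1, ← e2]
  · intro Sg m i1 p P hV hN
    obtain ⟨s1, s2⟩ := hS.aus _ Λ S.D st au g π.n (prs Sg p) P hg hV.lb.odd
    refine hκ Λ _ st au g π.n _ _ _ _ _ _ _ _ _ (tpX X π.j0) c1
      ⟨hg, s1 ▸ hN.nc, hN.fv.nb, fun l _ l' _ => hS.sym _ Λ S st au g π.n _ P hA hg hV.lb.inj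
        hV.lb.odd l (mem_univ _) l' (mem_univ _), s2⟩ (fun l hl => ?_) hN.j1 hN.j2
    exact (win hD hV hY l hl).imp_right hAn.trans_lt

end Pool.Agent.MP_1246c0_nt.H25
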